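import Mathlib

set_option autoImplicit false

namespace Pool.Agent.H.MP_3b56a7_co

open Finset

theorem energy (m n : ℕ) (S : Finset (Fin n)) :
    ∑ t : ZMod (m * n + 1), ‖∑ x ∈ S, ZMod.stdAddChar (t * ((x : ℕ) : ZMod (m * n + 1)))‖ ^ (2 * m) =
      (m * n + 1 : ℕ) * ((univ.filter (fun p : (Fin m → Fin n) × (Fin m → Fin n) =>
        ∑ i, (p.1 i : ℕ) = ∑ i, (p.2 i : ℕ) ∧ ∀ i, p.1 i ∈ S ∧ p.2 i ∈ S)).card : ℝ) := by
  set N := m * n + 1 with hN
  let ψ : AddChar (ZMod N) ℂ := ZMod.stdAddChar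
  have hpow : ∀ u : ZMod N, (∑ x ∈ S, ψ (u * ((x : ℕ) : ZMod N))) ^ m =
      ∑ x ∈ Fintype.piFinset (fun _ : Fin m => S), ψ (u * ((∑ i, (x i : ℕ) : ℕ) : ZMod N)) := by
    intro u
    rw [← Fin.prod_const, prod_univ_sum]
    apply sum_congr rfl
    intro x _
    rw [Nat.cast_sum, mul_sum]
    have : ∀ (s : Finset (Fin m)) (g : Fin m → ZMod N), ∏ i ∈ s, ψ (g i) = ψ (∑ i ∈ s, g i) := by
      intro s g
      induction s using Finset.induction_on with
      | empty => simp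
      | insert i s hi ih => rw [prod_insert hi, sum_insert hi, AddChar.map_add_eq_mul, ih]
    exact this _ _
  have hconj : ∀ u : ZMod N, (starRingEnd ℂ) (∑ x ∈ S, ψ (u * ((x : ℕ) : ZMod N))) =
      ∑ x ∈ S, ψ (-u * ((x : ℕ) : ZMod N)) := by
    intro u
    rw [map_sum]
    apply sum_congr rfl
    intro x _
    rw [neg_mul, AddChar.map_neg_eq_conj]
  have hlt : ∀ x : Fin m → Fin n, ∑ i, (x i : ℕ) < N := by
    intro x
    have : ∑ i, (x i : ℕ) ≤ ∑ _i : Fin m, n := sum_le_sum fun i _ => (x i).2.le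
    simp only [sum_const, card_univ, Fintype.card_fin, smul_eq_mul] at this
    omega
  apply Complex.ofReal_injective
  push_cast
  have e1 : ∀ t : ZMod N, ((‖∑ x ∈ S, ψ (t * ((x : ℕ) : ZMod N))‖ : ℝ) : ℂ) ^ (2 * m) =
      ∑ x ∈ Fintype.piFinset (fun _ : Fin m => S), ∑ y ∈ Fintype.piFinset (fun _ : Fin m => S),
        ψ (t * (((∑ i, (x i : ℕ) : ℕ) : ZMod N) - ((∑ i, (y i : ℕ) : ℕ) : ZMod N))) := by
    intro t
    rw [pow_mul, ← Complex.mul_conj', mul_pow, hconj, hpow, hpow, sum_mul_sum]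
    refine sum_congr rfl fun x _ => sum_congr rfl fun y _ => ?_
    rw [← AddChar.map_add_eq_mul]; congr 1; ring
  refine (sum_congr rfl fun t _ => e1 t).trans ?_
  rw [sum_comm]
  have e2 : ∀ x : Fin m → Fin n, ∑ t : ZMod N, ∑ y ∈ Fintype.piFinset (fun _ : Fin m => S),
        ψ (t * (((∑ i, (x i : ℕ) : ℕ) : ZMod N) - ((∑ i, (y i : ℕ) : ℕ) : ZMod N))) =
      ∑ y ∈ Fintype.piFinset (fun _ : Fin m => S),
        if ∑ i, (x i : ℕ) = ∑ i, (y i : ℕ) then (N : ℂ) else 0 := by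
    intro x
    rw [sum_comm]
    apply sum_congr rfl
    intro y _
    rw [AddChar.sum_mulShift _ (ZMod.isPrimitive_stdAddChar N), ZMod.card]
    have : (((∑ i, (x i : ℕ) : ℕ) : ZMod N) - ((∑ i, (y i : ℕ) : ℕ) : ZMod N) = 0) ↔
        ∑ i, (x i : ℕ) = ∑ i, (y i : ℕ) := by
      rw [sub_eq_zero, ZMod.natCast_eq_natCast_iff', Nat.mod_eq_of_lt (hlt x),
        Nat.mod_eq_of_lt (hlt y)]
    simp only [this]
    split_ifs <;> simp
  simp only [e2]
  rw [← sum_product', ← sum_filter, sum_const, nsmul_eq_mul, mul_comm]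
  congr 1
  · rw [hN]; push_cast; ring
  · congr 2
    ext p
    simp only [mem_filter, mem_product, Fintype.mem_piFinset, mem_univ, true_and, forall_and]
    tauto

end Pool.Agent.H.MP_3b56a7_co
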